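import Pool.Agent.H31.UDC.Cdx
import Pool.Agent.H27.BR.PSG
import Pool.Agent.H56.UD.MZ
import Pool.Agent.H64.NC.PRT

/-!
# THEOREM UD, final assembly: the theorem for one map (Julia set not the sphere)

`cdx` (chart with the fields), `bridge` (H27/BR: planar setting and gap discs), `core` (H56/UD/MZ).
-/

set_option autoImplicit false

open Filter Topology Polynomial Metric Set MeasureTheory

namespace Pool.Agent.H31.UDC

open Pool.Agent.H44.Fatou (rat rat_continuous ev wv crit_coe)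
open Pool.Agent.H56.HR (FS EqAt)
open Pool.Agent.H32.BT Pool.Agent.H79.Eul Pool.Agent.H79.Par Pool.Agent.H47.NN Pool.Agent.H44.ND
open Pool.Agent.H79.ES Pool.Agent.H35.EX Pool.Agent.H44.RC Pool.Agent.H47.RJ Pool.Agent.H84.BR
open Pool.Agent.H61.TT Pool.Agent.H57.CP Pool.Agent.H3.NC Pool.Agent.H57.CF Pool.Agent.H47.NM Pool.Agent.H47.PS
open Pool.Agent.H64.NC Pool.Agent.H83.UP Pool.Agent.H27.BR Pool.Agent.H66.IL
open Pool.Agent.H64.JS (KJ)

variable {d : ℕ}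

/-- charts with the fields -/
theorem ud_cd {v u : E d} {φ : OnePoint ℂ ≃ₜ OnePoint ℂ} {K : ℝ} {T : Set (OnePoint ℂ)} {D : ℕ} (h : CD v u φ K T D)
    (hx : FXc u) {c : OnePoint ℂ} (hc : IsCrit (Rf v) c) (hcJ : c ∈ JS (Rf v)) :
    ¬ UDs (KJ {c | IsCrit (Rf v) c} (JS (Rf v)) (Rf v)) := by
  intro hU
  have hJ : φ c ∈ JS (Rf u) := (js_conj φ (fun y => (h.conj y).symm) c).2 hcJ
  have hi : φ c ≠ OnePoint.infty := by
    intro h1
    rw [h1] at hJ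
    exact hJ h.ga.fi
  obtain ⟨c1, hc1⟩ := OnePoint.ne_infty_iff_exists.1 hi
  have hcr : IsCrit (Rf u) (c1 : OnePoint ℂ) := by
    rw [hc1]
    exact (isCrit_conj φ h.conj c).2 hc
  rw [← hc1] at hJ
  obtain ⟨P, Cr, δ, ρ, η, hPS, hug⟩ := bridge h hcr hJ
  obtain ⟨θ, C, r0, hθ, hθ1, hC, hr0, hUG⟩ := hug hU
  obtain ⟨E, X, hh, μ, b0, hX⟩ := hx c1 hcr hJ
  exact Pool.Agent.H56.UD.core hPS (hX δ) hθ hθ1 hC hr0 hUG

/-- THE THEOREM FOR ONE MAP -/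
theorem ud_map {m : ℕ} (hd : 2 ≤ d) (hm : m ≤ d) {x : Em d m} (hcop : IsCoprime (pol x.1) (pol x.2))
    (hdeg : max (pol x.1).natDegree (pol x.2).natDegree = d) (hup : ¬ UpF d m x)
    (hJ : JS (Rf (ex d m x)) ≠ univ) :
    (∀ c, IsCrit (Rf (ex d m x)) c → c ∉ JS (Rf (ex d m x))) ∨
      ¬ UDs (KJ {c | IsCrit (Rf (ex d m x)) c} (JS (Rf (ex d m x))) (Rf (ex d m x))) := by
  have hF : (FS (Rf (ex d m x))).Nonempty := by
    by_contra h1
    refine hJ ?_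
    show (FS (Rf (ex d m x)))ᶜ = univ
    rw [Set.not_nonempty_iff_eq_empty.1 h1, Set.compl_empty]
  obtain ⟨D, u, φ, K, T, h, hx⟩ := cdx hd hm hcop hdeg hup hF
  by_cases hc : ∃ c, IsCrit (Rf (ex d m x)) c ∧ c ∈ JS (Rf (ex d m x))
  · obtain ⟨c, hc, hcJ⟩ := hc
    exact Or.inr (ud_cd h hx hc hcJ)
  · push Not at hc
    exact Or.inl hc

end Pool.Agent.H31.UDC
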