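import Pool.Agent.H27.BR.CH
import Pool.Agent.H66.IL.FXP
import Pool.Agent.H64.NC.DCH
import Pool.Agent.H64.PF.ONE

/-!
# THEOREM UD, final assembly: charts with the fields

`FXc u`: the fields `FX` (H66/IL) for the critical points of the Julia set. `cdx_up`, `cdx_upF`: charts `CD` (H27/BR) with
fields; proofs of `cd_up`, `cd_upF` (H27/BR/CH) with `fx_up`, `fx_upF` (H66/IL/FXP). `cdx`: all families, Julia set not
the sphere.
-/

set_option autoImplicit false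

open Filter Topology Polynomial Metric Set MeasureTheory

namespace Pool.Agent.H31.UDC

open Pool.Agent.H44.Fatou (rat rat_continuous ev wv crit_coe)
open Pool.Agent.H56.HR (FS EqAt)
open Pool.Agent.H32.BT Pool.Agent.H79.Eul Pool.Agent.H79.Par Pool.Agent.H47.NN Pool.Agent.H44.ND
open Pool.Agent.H79.ES Pool.Agent.H35.EX Pool.Agent.H44.RC Pool.Agent.H47.RJ Pool.Agent.H84.BR
open Pool.Agent.H61.TT Pool.Agent.H57.CP Pool.Agent.H3.NC Pool.Agent.H57.CF Pool.Agent.H47.NM Pool.Agent.H47.PS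
open Pool.Agent.H64.NC Pool.Agent.H83.UP Pool.Agent.H27.BR Pool.Agent.H66.IL

variable {d : ℕ}

/-- the fields -/
def FXc (u : E d) : Prop := ∀ c : ℂ, IsCrit (Rf u) (c : OnePoint ℂ) → (c : OnePoint ℂ) ∈ JS (Rf u) →
  ∃ (E : Set ℂ) (X h μ : ℂ → ℂ) (b0 : ℝ), ∀ δ : ℝ,
    Pool.Agent.H56.UD.FX (Pool.Agent.H61.TT.gg (pol u.1) (pol u.2)) {z : ℂ | (pol u.2).eval z ≠ 0} (JC u) E δ X h μ b0

theorem cdx_up {v : E d} (hd : 2 ≤ d) (hcop : IsCoprime (pol v.1) (pol v.2))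
    (hdeg : max (pol v.1).natDegree (pol v.2).natDegree = d) (hup : ¬ Up v)
    (hF : (FS (Rf v)).Nonempty) :
    ∃ (u : E d) (φ : OnePoint ℂ ≃ₜ OnePoint ℂ) (K : ℝ) (T : Set (OnePoint ℂ)), CD v u φ K T (2 * d) ∧ FXc u := by
  obtain ⟨x0, hx0⟩ := hF
  obtain ⟨z, n, hs, -⟩ := Pool.Agent.H64.MJ.fs_att hd hcop hdeg hup hx0
  obtain ⟨p1, p2, h12, h1z, h2z⟩ : ∃ p1 p2 : OnePoint ℂ, p1 ≠ p2 ∧ p1 ≠ z ∧ p2 ≠ z := by
    have hinf : (({z} : Set (OnePoint ℂ))ᶜ).Infinite := (finite_singleton z).infinite_compl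
    obtain ⟨p1, hp1⟩ := hinf.nonempty
    obtain ⟨p2, hp2⟩ := (hinf.sdiff (finite_singleton p1)).nonempty
    exact ⟨p1, p2, fun h => hp2.2 h.symm, hp1, hp2.1⟩
  obtain ⟨L, G, φ, K, hch, -, -, -, fi⟩ := ch_three (d := d) hd h12 h1z h2z
  obtain ⟨hcop1, hdeg1, hφ⟩ := hch.conj v hcop hdeg
  have hup1 : ¬ Up (L v) := fun h =>
    hup (up_chart hd hch.cG hch.invL hch.invR (fun v h3 h4 => (hch.conj v h3 h4).2.2) hcop hdeg h)
  have hs1 : IsSink (Rf (L v)) OnePoint.infty n := by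
    rw [← fi]
    exact (isSink_conj φ hφ z n).2 hs
  obtain ⟨T, hT, hTi⟩ := trap_of_sink hcop1 (by rw [hdeg1]; exact hd) hs1
  have hGA : GA (L v) T :=
    ⟨hd, hcop1, hdeg1, fun p hp x m hcy hm => hup1 (Pool.Agent.H44.CP.neu_up hd hcop1 hdeg1 hp hcy hm),
      fun x hx => Pool.Agent.H44.NR.att_in hd hcop1 hdeg1 hup1 hx,
      fun x hx => Pool.Agent.H64.MJ.fs_att hd hcop1 hdeg1 hup1 hx, hT, hTi⟩
  refine ⟨L v, φ, K, T, ⟨hch.bil, hφ, hGA, by omega, ?_, fun x hx => lagr ⟨hd, hcop1, hdeg1⟩ hx,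
    fun η hη => mot_up hd hcop1 hdeg1 hup1 (hT.att _ (interior_subset hTi)) hη⟩,
    fun c hc hcJ => fx_up hGA hup1 hc hcJ⟩
  have h1 := Pool.Agent.H27.BR.ww_deg (pol (L v).1) (pol (L v).2) (m := d) (n := d) ((le_max_left _ _).trans hdeg1.le)
    ((le_max_right _ _).trans hdeg1.le)
  omega

theorem cdx_upF {k : ℕ} (hd : 2 ≤ d) (hk : 2 ≤ k) (hkd : k ≤ d) {x : Em d k} (hcop : IsCoprime (pol x.1) (pol x.2))
    (hdeg : max (pol x.1).natDegree (pol x.2).natDegree = d) (hup : ¬ UpF d k x) :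
    ∃ (D : ℕ) (u : E d) (φ : OnePoint ℂ ≃ₜ OnePoint ℂ) (K : ℝ) (T : Set (OnePoint ℂ)), CD (ex d k x) u φ K T D ∧
      FXc u := by
  obtain ⟨l, y, φ, K, hl, hld, hg, hK, hφ, hup'⟩ := red_gen hd hk hkd hcop hdeg
  have hupy : ¬ UpF d l y := fun h => hup (hup' h)
  obtain ⟨T, hGA⟩ := ga_gen hd hl hld hg hupy
  have hbl : (pol (ex d l y).2).natDegree + l ≤ d := by
    rw [(fam_ex hl hld hg).hb]
    omega
  refine ⟨2 * d - l, ex d l y, φ, K, T, ⟨hK, hφ, hGA, by omega, ?_,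
    fun x hx => Pool.Agent.H79.GP.lagn ⟨hd, hGA.cop, hGA.deg⟩ (by omega) hld hbl hx,
    fun η hη => mot_upF hd hl hld hg hupy hη⟩,
    fun c hc hcJ => fx_upF hd hl hld hg hupy hGA hc hcJ⟩
  have h1 := Pool.Agent.H27.BR.ww_deg (pol (ex d l y).1) (pol (ex d l y).2) (m := d) (n := d - l)
    ((le_max_left _ _).trans hGA.deg.le) (by omega)
  omega

/-- all families -/
theorem cdx {m : ℕ} (hd : 2 ≤ d) (hm : m ≤ d) {x : Em d m} (hcop : IsCoprime (pol x.1) (pol x.2))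
    (hdeg : max (pol x.1).natDegree (pol x.2).natDegree = d) (hup : ¬ UpF d m x) (hF : (FS (Rf (ex d m x))).Nonempty) :
    ∃ (D : ℕ) (u : E d) (φ : OnePoint ℂ ≃ₜ OnePoint ℂ) (K : ℝ) (T : Set (OnePoint ℂ)), CD (ex d m x) u φ K T D ∧
      FXc u := by
  have key : ¬ Up (ex d m x) → ∃ (D : ℕ) (u : E d) (φ : OnePoint ℂ ≃ₜ OnePoint ℂ) (K : ℝ) (T : Set (OnePoint ℂ)),
      CD (ex d m x) u φ K T D ∧ FXc u := by
    intro hup1
    obtain ⟨u, φ, K, T, h⟩ := cdx_up hd (ex_cop hcop) (ex_deg hdeg) hup1 hF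
    exact ⟨_, u, φ, K, T, h⟩
  rcases Nat.lt_or_ge m 2 with h2 | h2
  · rcases Nat.lt_or_ge m 1 with h1 | h1
    · obtain rfl : m = 0 := by omega
      exact key fun h => hup (up_zero h)
    · obtain rfl : m = 1 := by omega
      exact key fun h => hup (Pool.Agent.H64.PF.up_one hd hcop hdeg h)
  · exact cdx_upF hd h2 hm hcop hdeg hup

end Pool.Agent.H31.UDC
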